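import Mathlib

set_option autoImplicit false

namespace Pool.Agent.Results.MP_7acd66_nt.No

open Pointwise

/-- Perfect deficiency: run through the divisors in increasing order, subtracting when possible. -/
def pd (n : ℕ) : ℕ :=
  (n.divisors.sort (· ≤ ·)).foldl (fun r d => if d ≤ r then r - d else r) n

def L : List ℕ := [1, 3, 5, 7, 11, 15, 21, 33, 35, 55, 77, 105, 165, 231, 385, 547, 1155, 1291,
  1641, 2735, 3829, 3873, 6017, 6455, 8205, 9037, 11487, 14201, 18051, 19145, 19365, 27111, 30085,
  42119, 42603, 45185, 57435, 71005, 90255, 99407, 126357, 135555, 210595, 213015, 298221, 497035,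
  631785, 706177, 1491105, 2118531, 3530885, 4943239, 7767947, 10592655, 14829717, 23303841,
  24716195, 38839735, 54375629, 74148585, 116519205, 163126887, 271878145, 815634435]

theorem result : ∃ n : ℕ, Odd n ∧ 1155 < n ∧ pd n ≤ 10 := by
  refine ⟨815634435, by decide, by decide, ?_⟩
  have h1 : (815634435 : ℕ).divisors = L.toFinset := by
    rw [show (815634435 : ℕ) = 1155 * (547 * 1291) by norm_num, Nat.divisors_mul, Nat.divisors_mul]
    decide +kernel
  have h2 : (815634435 : ℕ).divisors.sort (· ≤ ·) = L := by
    rw [h1]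
    exact (List.toFinset_sort (· ≤ ·) (by decide +kernel)).2 (by decide +kernel)
  rw [pd, h2]
  decide +kernel

end Pool.Agent.Results.MP_7acd66_nt.No
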